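import Pool.Agent.Q188.EinN.Pt
import Pool.Agent.Q188.EinN.Int

/-!
# Einstein manifolds close to constant curvature: a dimension free expansion of the Gauss-Bonnet-Chern
integrand, the volume and the Weyl energy

There are absolute constants `c, C > 0` with the following property for all even dimensions
`n = 2 m ≥ 6`. At a point of a Riemannian `n`-manifold let `Ric = (n - 1) s κ g`, `s = ±1`, `κ > 0`, and
let the Weyl tensor satisfy `|W| ≤ c n κ`, or let all sectional curvatures differ from `s κ` by at most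
`c κ / √n`. Then `s^m` times the Gauss-Bonnet-Chern integrand is

`roundGB m κ * (1 + |W|² / (8 (n - 1) (n - 3) κ²) * (1 + θ))`, `|θ| ≤ C |W| / (n κ) ≤ 1 / 2`,

where `roundGB m κ` is the value for constant curvature `κ`. So a closed Einstein manifold which satisfies
the condition everywhere has `s^m χ(M) ≥ roundGB m κ * vol M`, with equality only for constant curvature, and
the difference is `roundGB m κ * ∫ |W|² / (8 (n - 1) (n - 3) κ²)` up to a factor between `1 / 2` and
`3 / 2`.

Proof: the integrand of `κ + W` is expanded in powers of `W` (`Pool/Agent/W666/GB`, where the terms are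
bounded by hypercontractivity and mixed discriminants). For Einstein tensors the linear term vanishes and
the quadratic term is exactly the Weyl energy (`EinN/Two.lean`, `EinN/Val.lean`); the remaining terms are
bounded by a geometric series in `|W| / (n κ)` which starts with the third power, and the second term
is at least `(|W| / (n κ))² / 8`.
-/

set_option autoImplicit false

namespace Pool.Agent.Results.MP_ebfab8_gt.NearConstantCurvature

open MeasureTheory
open Pool.Agent.W666.GB (AlgCurv gbc roundGB CurvField)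

/-- the squared norm of the Weyl tensor for `Ric = (2 m - 1) c`: of the difference of `R` and the
curvature tensor of constant curvature `c` -/
noncomputable def weylEnergy {V : Type} [NormedAddCommGroup V] [InnerProductSpace ℝ V] {m : ℕ}
    (e : OrthonormalBasis (Fin m × Bool) ℝ V) (R : V → V → V → V → ℝ) (c : ℝ) : ℝ :=
  ∑ i, ∑ j, ∑ k, ∑ l, (R (e i) (e j) (e k) (e l) -
    c * (inner ℝ (e i) (e k) * inner ℝ (e j) (e l) -
      inner ℝ (e i) (e l) * inner ℝ (e j) (e k))) ^ 2

/-- Einstein curvature tensors, `Ric = (2 m - 1) s κ`, in dimension `2 m`, close to constant curvature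
`s κ`: the norm of the Weyl tensor is at most `2 m c κ`, or all sectional curvatures differ from `s κ` by
at most `c κ / √(2 m)` -/
structure NearConstant {V : Type} [NormedAddCommGroup V] [InnerProductSpace ℝ V] {m : ℕ}
    (c s κ : ℝ) (e : OrthonormalBasis (Fin m × Bool) ℝ V) (R : V → V → V → V → ℝ) : Prop where
  curv : AlgCurv R
  ein : ∀ v w : V, ∑ i, R (e i) v (e i) w = (2 * m - 1) * (s * κ) * inner ℝ v w
  near : weylEnergy e R (s * κ) ≤ (c * κ * (2 * m)) ^ 2 ∨
    ∀ x y : V, ‖x‖ = 1 → ‖y‖ = 1 → inner ℝ x y = 0 →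
      |R x y x y - s * κ| ≤ c * κ / Real.sqrt (2 * m)

/-- constant curvature `c` -/
def ConstCurv {V : Type} [NormedAddCommGroup V] [InnerProductSpace ℝ V]
    (R : V → V → V → V → ℝ) (c : ℝ) : Prop :=
  ∀ x y z w : V, R x y z w = c * (inner ℝ x z * inner ℝ y w - inner ℝ x w * inner ℝ y z)

/-- the relative second term `|W|² / (8 (n - 1) (n - 3) κ²)`, `n = 2 m` -/
noncomputable def second (m : ℕ) (κ N : ℝ) : ℝ := N / (8 * (2 * m - 1) * (2 * m - 3) * κ ^ 2)

/-- Einstein curvature tensors close to constant curvature, in all even dimensions. -/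
theorem result : ∃ c C : ℝ, 0 < c ∧ 0 < C ∧
    -- at a point
    (∀ (m : ℕ) (V : Type) [NormedAddCommGroup V] [InnerProductSpace ℝ V]
      (e : OrthonormalBasis (Fin m × Bool) ℝ V) (R : V → V → V → V → ℝ) (s κ : ℝ),
      3 ≤ m → s = 1 ∨ s = -1 → 0 < κ → NearConstant c s κ e R →
        |s ^ m * gbc e R - roundGB m κ * (1 + second m κ (weylEnergy e R (s * κ)))| ≤
          C * (Real.sqrt (weylEnergy e R (s * κ)) / (2 * m * κ)) *
            (roundGB m κ * second m κ (weylEnergy e R (s * κ))) ∧
        C * (Real.sqrt (weylEnergy e R (s * κ)) / (2 * m * κ)) ≤ 1 / 2) ∧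
    -- the integrals
    (∀ (m : ℕ) (M : Type) [MeasurableSpace M] (μ : Measure M) [IsFiniteMeasure μ]
      (K : CurvField m M) (s κ : ℝ), 3 ≤ m → s = 1 ∨ s = -1 → 0 < κ → Integrable K.gb μ →
      (∀ p, NearConstant c s κ (K.e p) (K.R p)) →
        (Integrable (fun p => weylEnergy (K.e p) (K.R p) (s * κ)) μ →
          |s ^ m * ∫ p, K.gb p ∂μ - roundGB m κ * (μ.real Set.univ +
            second m κ (∫ p, weylEnergy (K.e p) (K.R p) (s * κ) ∂μ))| ≤
              1 / 2 * (roundGB m κ *
                second m κ (∫ p, weylEnergy (K.e p) (K.R p) (s * κ) ∂μ))) ∧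
        roundGB m κ * μ.real Set.univ ≤ s ^ m * ∫ p, K.gb p ∂μ ∧
        (s ^ m * ∫ p, K.gb p ∂μ = roundGB m κ * μ.real Set.univ →
          ∀ᵐ p ∂μ, ConstCurv (K.R p) (s * κ))) := by
  have hQ := Q188.EinN.Q_ge
  have hQ0 : 0 < Q188.EinN.Q := by linarith
  set Q := Q188.EinN.Q with hQd
  have point : ∀ (m : ℕ) (V : Type) [NormedAddCommGroup V] [InnerProductSpace ℝ V]
      (e : OrthonormalBasis (Fin m × Bool) ℝ V) (R : V → V → V → V → ℝ) (s κ : ℝ),
      3 ≤ m → s = 1 ∨ s = -1 → 0 < κ → NearConstant (3 / (64 * Q ^ 3)) s κ e R →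
        |s ^ m * gbc e R - roundGB m κ * (1 + second m κ (weylEnergy e R (s * κ)))| ≤
          8 * Q ^ 3 * (Real.sqrt (weylEnergy e R (s * κ)) / (2 * m * κ)) *
            (roundGB m κ * second m κ (weylEnergy e R (s * κ))) ∧
        8 * Q ^ 3 * (Real.sqrt (weylEnergy e R (s * κ)) / (2 * m * κ)) ≤ 1 / 2 := by
    intro m V _ _ e R s κ hm hs hκ h
    have hm0 : (0 : ℝ) < m := by
      have : 0 < m := by omega
      exact_mod_cast this
    have hN : weylEnergy e R (s * κ) ≤ (1 / (16 * Q ^ 3) * κ * (2 * m)) ^ 2 := by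
      rcases h.near with h1 | h1
      · refine h1.trans ?_
        refine pow_le_pow_left₀ (by positivity) ?_ 2
        refine mul_le_mul_of_nonneg_right (mul_le_mul_of_nonneg_right ?_ hκ.le) (by positivity)
        rw [div_le_div_iff₀ (by positivity) (by positivity)]
        nlinarith [pow_pos hQ0 3]
      · have h2 := Q188.EinN.weyl_of_sec e (by omega) h.curv (t := 3 / (64 * Q ^ 3))
          (by positivity) hκ h1
        refine (le_of_eq rfl).trans (h2.trans (le_of_eq ?_))
        congr 3
        field_simp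
        norm_num
    exact Q188.EinN.pt e (by omega) h.curv hs hκ h.ein hN
  refine ⟨3 / (64 * Q ^ 3), 8 * Q ^ 3, by positivity, by positivity, point, ?_⟩
  intro m M _ μ _ K s κ hm hs hκ hf h
  have hmR : (3 : ℝ) ≤ m := by exact_mod_cast hm
  have hr := Pool.Agent.W666.GB.roundGB_pos (m := m) hκ
  have p1 : (0 : ℝ) < 2 * m - 1 := by linarith
  have p3 : (0 : ℝ) < 2 * m - 3 := by linarith
  have hn : ∀ p, 0 ≤ weylEnergy (K.e p) (K.R p) (s * κ) := fun p =>
    Q188.EinN.weylSq_nonneg (K.e p) (K.R p) (s * κ)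
  set t : ℝ := 1 / (8 * (2 * m - 1) * (2 * m - 3) * κ ^ 2) with ht
  have ht0 : 0 < t := by positivity
  have hsec : ∀ N : ℝ, second m κ N = t * N := by
    intro N
    unfold second
    rw [ht]
    field_simp
  have habs : ∀ p, |s ^ m * K.gb p - roundGB m κ * (1 + t *
      weylEnergy (K.e p) (K.R p) (s * κ))| ≤
      1 / 2 * (roundGB m κ * (t * weylEnergy (K.e p) (K.R p) (s * κ))) := by
    intro p
    obtain ⟨h1, h2⟩ := point m (K.V p) (K.e p) (K.R p) s κ hm hs hκ (h p)
    rw [hsec] at h1
    have h5 : 0 ≤ roundGB m κ * (t * weylEnergy (K.e p) (K.R p) (s * κ)) :=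
      mul_nonneg hr.le (mul_nonneg ht0.le (hn p))
    exact h1.trans (mul_le_mul_of_nonneg_right h2 h5)
  have hp : ∀ p, roundGB m κ * (1 + t / 2 *
      weylEnergy (K.e p) (K.R p) (s * κ)) ≤ s ^ m * K.gb p := by
    intro p
    have h3 := (abs_le.1 (habs p)).1
    linarith
  have hc : 0 < t / 2 := by positivity
  have e0 : s ^ m * ∫ p, K.gb p ∂μ = ∫ p, s ^ m * K.gb p ∂μ := (integral_const_mul _ _).symm
  rw [e0]
  refine ⟨fun hw => ?_, ?_, fun he => ?_⟩
  · rw [hsec]
    exact Q188.EinN.int_abs (hf.const_mul (s ^ m)) hw habs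
  · exact Q188.EinN.int_ge0 hr hc.le (hf.const_mul (s ^ m)) hn hp
  · have h1 := Q188.EinN.int_eq0 hr hc (hf.const_mul (s ^ m)) hn hp he
    filter_upwards [h1] with p hp
    exact Q188.EinN.weylSq_zero (K.e p) (K.curv p) hp

end Pool.Agent.Results.MP_ebfab8_gt.NearConstantCurvature
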