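import Pool.Agent.Q188.Pon.Main
import Pool.Agent.Q188.Pon.Ber

/-!
# An inequality of Hitchin-Thorpe type in all dimensions for Einstein metrics close to constant curvature

Let `M` be a closed oriented Riemannian manifold of dimension `n = 2 m ≥ 6` with
`Ric = (n - 1) s κ g`, `s = ±1`, `κ > 0`. For every `A ≥ 1` there is `c > 0`, which depends on `A` but not on
`n`, such that the following holds if the Weyl tensor satisfies `|W| ≤ c √n κ` everywhere, or if all
sectional curvatures differ from `s κ` by at most `c κ / n`: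

`|σ(M)| ≤ A^(-m) * (s^m χ(M) - roundGB m κ * vol M)`,

where `σ` is the signature; and the same holds for every linear combination, with coefficients of sum at
most `A^m`, of the integrals of products of trace forms `tr ((Ω / 2 π)^k)`, in particular for the
Pontryagin numbers.

At a point, for every algebraic curvature tensor `R` and every real number `c` each of these products
of trace forms is bounded by `(√(2 m) |R - c| / (4 π))^m`, where `|R - c|` is the norm of the difference
of `R` and the tensor of constant curvature `c`. Proof: by the Bianchi identity a factor of constant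
curvature does not contribute (`Pon/Bia.lean`), and the products of the two-forms `Ω_ab` are bounded by
Hadamard's inequality (`Pon/Wed.lean`) and an inequality of Finner's type (`Pon/Fin.lean`). For Einstein
tensors close to constant curvature the Gauss-Bonnet-Chern integrand exceeds its value for constant
curvature by a definite multiple of `|W|²` (`EinN/Pt.lean`).
-/

set_option autoImplicit false

namespace Pool.Agent.Results.MP_ebfab8_gt.SignatureNearConstant

open MeasureTheory
open Pool.Agent.W666.GB (AlgCurv gbc roundGB CurvField)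

/-- the squared norm of the difference of `R` and the curvature tensor of constant curvature `c`; for
`Ric = (2 m - 1) c` the squared norm of the Weyl tensor -/
noncomputable def weylEnergy {V : Type} [NormedAddCommGroup V] [InnerProductSpace ℝ V] {m : ℕ}
    (e : OrthonormalBasis (Fin m × Bool) ℝ V) (R : V → V → V → V → ℝ) (c : ℝ) : ℝ :=
  ∑ i, ∑ j, ∑ k, ∑ l, (R (e i) (e j) (e k) (e l) -
    c * (inner ℝ (e i) (e k) * inner ℝ (e j) (e l) -
      inner ℝ (e i) (e l) * inner ℝ (e j) (e k))) ^ 2

/-- The product, over the cycles of `τ`, of the forms `tr ((Ω / 2 π) ^ k)`, `k` the length of the cycle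
and `Ω` the curvature form: the coefficient of the volume form given by the basis `e` -/
noncomputable def traceForm {V : Type} [NormedAddCommGroup V] [InnerProductSpace ℝ V] {m : ℕ}
    (τ : Equiv.Perm (Fin m)) (e : OrthonormalBasis (Fin m × Bool) ℝ V) (R : V → V → V → V → ℝ) : ℝ :=
  1 / (4 * Real.pi) ^ m * ∑ σ : Equiv.Perm (Fin m × Bool), ((Equiv.Perm.sign σ : ℤ) : ℝ) *
    ∑ a : Fin m → Fin m × Bool,
      ∏ i, R (e (σ (i, false))) (e (σ (i, true))) (e (a i)) (e (a (τ i)))

/-- the coefficients of the logarithm of Hirzebruch's power series `x / tanh x`: the series is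
`exp (∑ j, lCoef j * tr ((Ω / 2 π) ^ j) / j)` -/
noncomputable def lCoef (k : ℕ) : ℝ :=
  if Even k then (-1) ^ (k / 2) * (2 ^ (k - 1) - 1) * 2 ^ k * bernoulli k / k.factorial else 0

/-- Hirzebruch's `L`-form in dimension `2 m`, whose integral over a closed oriented Riemannian manifold is
the signature (zero for odd `m`) -/
noncomputable def signForm {V : Type} [NormedAddCommGroup V] [InnerProductSpace ℝ V] {m : ℕ}
    (e : OrthonormalBasis (Fin m × Bool) ℝ V) (R : V → V → V → V → ℝ) : ℝ :=
  ∑ τ : Equiv.Perm (Fin m),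
    1 / (m.factorial : ℝ) * (τ.partition.parts.map lCoef).prod * traceForm τ e R

/-- Einstein curvature tensors, `Ric = (2 m - 1) s κ`, in dimension `2 m`, close to constant curvature
`s κ`: the norm of the Weyl tensor is at most `c κ √(2 m)`, or all sectional curvatures differ from `s κ`
by at most `c κ / (2 m)` -/
structure NearConstant {V : Type} [NormedAddCommGroup V] [InnerProductSpace ℝ V] {m : ℕ}
    (c s κ : ℝ) (e : OrthonormalBasis (Fin m × Bool) ℝ V) (R : V → V → V → V → ℝ) : Prop where
  curv : AlgCurv R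
  ein : ∀ v w : V, ∑ i, R (e i) v (e i) w = (2 * m - 1) * (s * κ) * inner ℝ v w
  near : weylEnergy e R (s * κ) ≤ (c * κ) ^ 2 * (2 * m) ∨
    ∀ x y : V, ‖x‖ = 1 → ‖y‖ = 1 → inner ℝ x y = 0 →
      |R x y x y - s * κ| ≤ c * κ / (2 * m)

theorem traceForm_eq {V : Type} [NormedAddCommGroup V] [InnerProductSpace ℝ V] {m : ℕ}
    (τ : Equiv.Perm (Fin m)) (e : OrthonormalBasis (Fin m × Bool) ℝ V)
    (R : V → V → V → V → ℝ) : traceForm τ e R =
      1 / (4 * Real.pi) ^ m * Q188.Pon.PP τ (fun _ x y z w => R (e x) (e y) (e z) (e w)) := rfl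

theorem lCoef_le (k : ℕ) (hk : 1 ≤ k) : |lCoef k| ≤ 1 ^ k := by
  rw [one_pow]
  unfold lCoef
  split_ifs with h
  · obtain ⟨j, rfl⟩ := h.two_dvd
    have h1 := Q188.Pon.coef_le (j := j) (by omega)
    rwa [Nat.mul_div_cancel_left j (by norm_num)]
  · simp

/-- An inequality of Hitchin-Thorpe type for Einstein metrics close to constant curvature, in all
dimensions. -/
theorem result :
    -- all algebraic curvature tensors
    (∀ (m : ℕ) (V : Type) [NormedAddCommGroup V] [InnerProductSpace ℝ V]
      (e : OrthonormalBasis (Fin m × Bool) ℝ V) (R : V → V → V → V → ℝ) (c : ℝ)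
      (τ : Equiv.Perm (Fin m)), AlgCurv R →
        |traceForm τ e R| ≤ (Real.sqrt (2 * m * weylEnergy e R c) / (4 * Real.pi)) ^ m) ∧
    ∀ A : ℝ, 1 ≤ A → ∃ c : ℝ, 0 < c ∧
      -- Einstein curvature tensors close to constant curvature
      (∀ (m : ℕ) (V : Type) [NormedAddCommGroup V] [InnerProductSpace ℝ V]
        (e : OrthonormalBasis (Fin m × Bool) ℝ V) (R : V → V → V → V → ℝ) (s κ : ℝ)
        (τ : Equiv.Perm (Fin m)), 3 ≤ m → s = 1 ∨ s = -1 → 0 < κ → NearConstant c s κ e R →
          A ^ m * |traceForm τ e R| ≤ s ^ m * gbc e R - roundGB m κ) ∧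
      -- the integrals
      ∀ (m : ℕ) (M : Type) [MeasurableSpace M] (μ : Measure M) [IsFiniteMeasure μ]
        (K : CurvField m M) (s κ : ℝ), 3 ≤ m → s = 1 ∨ s = -1 → 0 < κ → Integrable K.gb μ →
        (∀ p, NearConstant c s κ (K.e p) (K.R p)) →
          (∀ coef : Equiv.Perm (Fin m) → ℝ, ∑ τ, |coef τ| ≤ A ^ m →
            A ^ m * |∫ p, ∑ τ, coef τ * traceForm τ (K.e p) (K.R p) ∂μ| ≤
              s ^ m * ∫ p, K.gb p ∂μ - roundGB m κ * μ.real Set.univ) ∧
          A ^ m * |∫ p, signForm (K.e p) (K.R p) ∂μ| ≤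
            s ^ m * ∫ p, K.gb p ∂μ - roundGB m κ * μ.real Set.univ := by
  have hπ := Real.pi_pos
  refine ⟨?_, ?_⟩
  · intro m V _ _ e R c τ hR
    have h1 := Q188.Pon.tr_le e hR c τ
    rw [traceForm_eq, abs_mul, abs_of_pos (by positivity : 0 < 1 / (4 * Real.pi) ^ m), div_pow,
      Real.sqrt_mul (by positivity)]
    calc 1 / (4 * Real.pi) ^ m *
        |Q188.Pon.PP τ (fun _ x y z w => R (e x) (e y) (e z) (e w))| ≤
        1 / (4 * Real.pi) ^ m * (Real.sqrt (2 * m) * Real.sqrt (weylEnergy e R c)) ^ m :=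
          mul_le_mul_of_nonneg_left h1 (by positivity)
      _ = _ := by ring
  intro A hA
  have hA0 : 0 < A := by linarith
  have hA2 : 1 ≤ A ^ 2 := one_le_pow₀ hA
  have hc := Q188.Pon.cc_pos hA2
  have point : ∀ (m : ℕ) (V : Type) [NormedAddCommGroup V] [InnerProductSpace ℝ V]
      (e : OrthonormalBasis (Fin m × Bool) ℝ V) (R : V → V → V → V → ℝ) (s κ : ℝ)
      (τ : Equiv.Perm (Fin m)), 3 ≤ m → s = 1 ∨ s = -1 → 0 < κ →
      NearConstant (3 / 4 * Q188.Pon.cc (A ^ 2)) s κ e R →
        (A ^ 2) ^ m * |traceForm τ e R| ≤ s ^ m * gbc e R - roundGB m κ := by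
    intro m V _ _ e R s κ τ hm hs hκ h
    have h1 := Q188.Pon.near hm e h.curv hA2 hκ h.near
    have h2 := Q188.Pon.pt_le hm e h.curv hA2 hs hκ h.ein h1 τ
    rw [traceForm_eq, abs_mul, abs_of_pos (by positivity : 0 < 1 / (4 * Real.pi) ^ m)]
    exact h2
  refine ⟨3 / 4 * Q188.Pon.cc (A ^ 2), by positivity, ?_, ?_⟩
  · intro m V _ _ e R s κ τ hm hs hκ h
    refine le_trans ?_ (point m V e R s κ τ hm hs hκ h)
    refine mul_le_mul_of_nonneg_right ?_ (abs_nonneg _)
    exact pow_le_pow_left₀ hA0.le (by nlinarith) m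
  · intro m M _ μ _ K s κ hm hs hκ hf h
    have gen : ∀ coef : Equiv.Perm (Fin m) → ℝ, ∑ τ, |coef τ| ≤ A ^ m →
        A ^ m * |∫ p, ∑ τ, coef τ * traceForm τ (K.e p) (K.R p) ∂μ| ≤
          s ^ m * ∫ p, K.gb p ∂μ - roundGB m κ * μ.real Set.univ := by
      intro coef hcoef
      have hAm : 0 < A ^ m := by positivity
      have hb : ∀ p, ‖∑ τ, coef τ * traceForm τ (K.e p) (K.R p)‖ ≤
          (A ^ m)⁻¹ * (s ^ m * K.gb p - roundGB m κ) := by
        intro p
        rw [Real.norm_eq_abs]
        have h1 : ∀ τ, |coef τ * traceForm τ (K.e p) (K.R p)| ≤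
            |coef τ| * ((A ^ m)⁻¹ * ((A ^ m)⁻¹ * (s ^ m * K.gb p - roundGB m κ))) := by
          intro τ
          rw [abs_mul]
          refine mul_le_mul_of_nonneg_left ?_ (abs_nonneg _)
          have h2 := point m (K.V p) (K.e p) (K.R p) s κ τ hm hs hκ (h p)
          rw [← mul_assoc, ← mul_inv, ← mul_pow, ← sq, le_inv_mul_iff₀ (by positivity)]
          exact h2
        have h3 : 0 ≤ (A ^ m)⁻¹ * ((A ^ m)⁻¹ * (s ^ m * K.gb p - roundGB m κ)) := by
          have h4 := point m (K.V p) (K.e p) (K.R p) s κ 1 hm hs hκ (h p)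
          have h5 : 0 ≤ s ^ m * K.gb p - roundGB m κ := le_trans (by positivity) h4
          positivity
        calc |∑ τ, coef τ * traceForm τ (K.e p) (K.R p)| ≤
            ∑ τ, |coef τ * traceForm τ (K.e p) (K.R p)| := Finset.abs_sum_le_sum_abs _ _
          _ ≤ ∑ τ, |coef τ| * ((A ^ m)⁻¹ * ((A ^ m)⁻¹ * (s ^ m * K.gb p - roundGB m κ))) :=
            Finset.sum_le_sum fun τ _ => h1 τ
          _ = (∑ τ, |coef τ|) * ((A ^ m)⁻¹ * ((A ^ m)⁻¹ * (s ^ m * K.gb p - roundGB m κ))) := by
            rw [Finset.sum_mul]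
          _ ≤ A ^ m * ((A ^ m)⁻¹ * ((A ^ m)⁻¹ * (s ^ m * K.gb p - roundGB m κ))) :=
            mul_le_mul_of_nonneg_right hcoef h3
          _ = _ := by rw [mul_inv_cancel_left₀ hAm.ne']
      have hint : Integrable (fun p => (A ^ m)⁻¹ * (s ^ m * K.gb p - roundGB m κ)) μ :=
        ((hf.const_mul _).sub (integrable_const _)).const_mul _
      have h6 := norm_integral_le_of_norm_le hint (Filter.Eventually.of_forall hb)
      rw [integral_const_mul, integral_sub (hf.const_mul _) (integrable_const _),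
        integral_const_mul, integral_const, smul_eq_mul, Real.norm_eq_abs,
        le_inv_mul_iff₀ hAm] at h6
      rw [mul_comm (roundGB m κ)]
      exact h6
    refine ⟨gen, ?_⟩
    have h1 := gen (fun τ => 1 / (m.factorial : ℝ) * (τ.partition.parts.map lCoef).prod) (by
      refine (Q188.Pon.coef_sum_le lCoef zero_le_one lCoef_le m).trans ?_
      exact pow_le_pow_left₀ zero_le_one hA m)
    exact h1

end Pool.Agent.Results.MP_ebfab8_gt.SignatureNearConstant
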