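import Pool.Agent.Q188.Ein.Int

/-!
# The Euler characteristic, the volume and the Weyl energy of Einstein six-manifolds

Let `Ric = 5 s κ g` (`s = 1` or `s = -1`, `κ > 0`) and `s K ≤ k κ` for all sectional curvatures `K` of a
Riemannian six-manifold: for `s = -1` negative Einstein metrics with `K ≥ -k κ`. Then, at every point,
`s` times the Gauss-Bonnet-Chern integrand is at least

`roundGB κ * (1 + (53 - 44 k) / (1080 κ²) |W|²)`,

where `roundGB κ` is its value for constant curvature `κ` and `W` is the Weyl tensor, and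
`|W|² ≤ 640 (k - 1)² κ²`; both inequalities are equalities, for every `k ≥ 1`, for a combination of the
curvature tensors of the sphere and of complex projective space. In particular, for `k ≤ 53 / 44`, a
closed Einstein manifold satisfies `s χ(M) ≥ roundGB κ * vol M`, with equality, if `k < 53 / 44`, only for
constant curvature.

Proof: the integrand of an Einstein tensor is the average over the unit vectors `x` of a polynomial in
the Jacobi operator of `x`, with eigenvalues `l₁, …, l₅` and the sectional curvatures `K_ij` of the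
eigenvectors (`Pool/Agent/W714/HE`); an inequality for these numbers (`Fin.lean`: Newton's and Maclaurin's
inequalities for `l_i ≤ k`) bounds it below by `135 + 4 (53 - 44 k) (∑ l_i² - 5)`, and the average of
`∑ l_i²` is `5 + |W|² / 32` (for `κ = 1`).
-/

set_option autoImplicit false

namespace Pool.Agent.Results.MP_ebfab8_gt.WeylEnergyDimSix

open Hopf6 MeasureTheory Pool.Agent.W714.HE Pool.Agent.W714.ES Pool.Agent.Q188.Ein

/-- algebraic curvature tensors on a six-dimensional Euclidean space `V` with orthonormal basis `e`, with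
Ricci tensor `5 s κ` and with `s K ≤ k κ` for all sectional curvatures `K` -/
structure OneSided {V : Type} [NormedAddCommGroup V] [InnerProductSpace ℝ V] (s κ k : ℝ)
    (e : OrthonormalBasis (Fin 6) ℝ V) (R : V → V → V → V → ℝ) : Prop where
  curv : AlgCurv R
  ein : ∀ v w : V, ∑ i, R (e i) v (e i) w = 5 * (s * κ) * inner ℝ v w
  sec : ∀ x y : V, ‖x‖ = 1 → ‖y‖ = 1 → inner ℝ x y = 0 → s * R x y x y ≤ k * κ

/-- the squared norm of the Weyl tensor for `Ric = 5 c`: of the difference of `R` and the curvature tensor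
of constant curvature `c` -/
noncomputable def weylEnergy {V : Type} [NormedAddCommGroup V] [InnerProductSpace ℝ V]
    (e : OrthonormalBasis (Fin 6) ℝ V) (R : V → V → V → V → ℝ) (c : ℝ) : ℝ :=
  ∑ a, ∑ b, ∑ p, ∑ q, (R (e a) (e b) (e p) (e q) -
    c * (inner ℝ (e a) (e p) * inner ℝ (e b) (e q) -
      inner ℝ (e a) (e q) * inner ℝ (e b) (e p))) ^ 2

/-- constant curvature `c` -/
def ConstCurv {V : Type} [NormedAddCommGroup V] [InnerProductSpace ℝ V]
    (R : V → V → V → V → ℝ) (c : ℝ) : Prop :=
  ∀ x y z w : V, R x y z w = c * (inner ℝ x z * inner ℝ y w - inner ℝ x w * inner ℝ y z)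

theorem point {V : Type} [NormedAddCommGroup V] [InnerProductSpace ℝ V]
    (e : OrthonormalBasis (Fin 6) ℝ V) (R : V → V → V → V → ℝ) (s κ k : ℝ)
    (hs : s = 1 ∨ s = -1) (hκ : 0 < κ) (h : OneSided s κ k e R) :
    roundGB κ * (1 + (53 - 44 * k) / (1080 * κ ^ 2) * weylEnergy e R (s * κ)) ≤
      s * Hopf6.gbc e R ∧ weylEnergy e R (s * κ) ≤ 640 * (k - 1) ^ 2 * κ ^ 2 := by
  rcases hs with rfl | rfl
  · have hE : Einstein e R κ := by
      intro v w
      rw [h.ein v w]
      ring
    have hS : SecLE R (k * κ) := by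
      intro x y hx hy hxy
      have := h.sec x y hx hy hxy
      linarith
    rw [one_mul, one_mul]
    exact pos2 e h.curv hκ hE hS
  · have hE : Einstein e R (-κ) := by
      intro v w
      rw [h.ein v w]
      ring
    have hS : SecGE R (-(k * κ)) := by
      intro x y hx hy hxy
      have := h.sec x y hx hy hxy
      linarith
    have h1 := neg2 e h.curv hκ hE hS
    have e1 : (-1 : ℝ) * κ = -κ := by ring
    rw [e1]
    refine ⟨?_, h1.2⟩
    have h2 := h1.1
    show roundGB κ * (1 + (53 - 44 * k) / (1080 * κ ^ 2) * weylSq e R (-κ)) ≤ _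
    linarith

/-- Einstein curvature tensors in dimension six with a one-sided bound of the sectional curvature, with
the energy of the Weyl tensor. -/
theorem result :
    -- the pointwise bounds
    (∀ (V : Type) [NormedAddCommGroup V] [InnerProductSpace ℝ V]
      (e : OrthonormalBasis (Fin 6) ℝ V) (R : V → V → V → V → ℝ) (s κ k : ℝ),
      s = 1 ∨ s = -1 → 0 < κ → OneSided s κ k e R →
        roundGB κ * (1 + (53 - 44 * k) / (1080 * κ ^ 2) * weylEnergy e R (s * κ)) ≤
          s * Hopf6.gbc e R ∧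
        weylEnergy e R (s * κ) ≤ 640 * (k - 1) ^ 2 * κ ^ 2) ∧
    -- the bounds are attained
    (∀ s κ k : ℝ, s = 1 ∨ s = -1 → 0 < κ → 1 ≤ k →
      ∃ R : EuclideanSpace ℝ (Fin 6) → EuclideanSpace ℝ (Fin 6) → EuclideanSpace ℝ (Fin 6) →
          EuclideanSpace ℝ (Fin 6) → ℝ,
        OneSided s κ k (EuclideanSpace.basisFun (Fin 6) ℝ) R ∧
        weylEnergy (EuclideanSpace.basisFun (Fin 6) ℝ) R (s * κ) = 640 * (k - 1) ^ 2 * κ ^ 2 ∧
        s * Hopf6.gbc (EuclideanSpace.basisFun (Fin 6) ℝ) R =
          roundGB κ * (1 + (53 - 44 * k) / (1080 * κ ^ 2) *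
            weylEnergy (EuclideanSpace.basisFun (Fin 6) ℝ) R (s * κ))) ∧
    -- the integrals
    (∀ (M : Type) [MeasurableSpace M] (μ : Measure M) [IsFiniteMeasure μ] (K : CurvField M)
      (s κ k : ℝ), s = 1 ∨ s = -1 → 0 < κ → Integrable K.gbc μ →
      (∀ p, OneSided s κ k (K.e p) (K.R p)) →
        (Integrable (fun p => weylEnergy (K.e p) (K.R p) (s * κ)) μ →
          roundGB κ * (μ.real Set.univ + (53 - 44 * k) / (1080 * κ ^ 2) *
            ∫ p, weylEnergy (K.e p) (K.R p) (s * κ) ∂μ) ≤ s * ∫ p, K.gbc p ∂μ) ∧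
        (k ≤ 53 / 44 → roundGB κ * μ.real Set.univ ≤ s * ∫ p, K.gbc p ∂μ) ∧
        (k < 53 / 44 → s * ∫ p, K.gbc p ∂μ = roundGB κ * μ.real Set.univ →
          ∀ᵐ p ∂μ, ConstCurv (K.R p) (s * κ))) := by
  refine ⟨?_, ?_, ?_⟩
  · intro V _ _ e R s κ k hs hκ h
    exact point e R s κ k hs hκ h
  · intro s κ k hs hκ hk
    have hq : 0 ≤ (5 * k - 5) * κ := mul_nonneg (by linarith) hκ.le
    have h1 := Rex_Einstein k κ
    have h2 := Rex_sec (p := k * κ) hq
    have h3 := weylSq_Rex k κ
    have h4 := sharp2 hκ k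
    rcases hs with rfl | rfl
    · refine ⟨Rex (k * κ) ((5 * k - 5) * κ), ⟨Rex_curv _ _, ?_, ?_⟩, ?_, ?_⟩
      · intro v w
        rw [h1 v w]
        ring
      · intro x y hx hy hxy
        rw [one_mul]
        exact h2 x y hx hy hxy
      · rw [one_mul]
        exact h3
      · rw [one_mul, one_mul]
        exact h4
    · have e1 : (-1 : ℝ) * κ = -κ := by ring
      have h5 : weylEnergy be (fun x y z w => - Rex (k * κ) ((5 * k - 5) * κ) x y z w) (-κ) =
          weylSq be (Rex (k * κ) ((5 * k - 5) * κ)) κ := by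
        have := weylSq_neg be (Rex (k * κ) ((5 * k - 5) * κ)) (-κ)
        rw [neg_neg] at this
        exact this
      refine ⟨fun x y z w => - Rex (k * κ) ((5 * k - 5) * κ) x y z w,
        ⟨neg_curv (Rex_curv _ _), ?_, ?_⟩, ?_, ?_⟩
      · intro v w
        rw [Finset.sum_neg_distrib, h1 v w]
        ring
      · intro x y hx hy hxy
        have := h2 x y hx hy hxy
        linarith
      · rw [e1]
        exact h5.trans h3
      · rw [e1]
        show _ = roundGB κ * (1 + (53 - 44 * k) / (1080 * κ ^ 2) *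
          weylEnergy be (fun x y z w => - Rex (k * κ) ((5 * k - 5) * κ) x y z w) (-κ))
        rw [h5, ← h4, gbc_eq, gbc_eq]
        show -1 * (1 / ((8 * Real.pi) ^ 3 * 6) *
          gb (tn be fun x y z w => - Rex (k * κ) ((5 * k - 5) * κ) x y z w)) = _
        rw [gb_neg]
        ring
  · intro M _ μ _ K s κ k hs hκ hf h
    have hr := roundGB_pos hκ
    have hp : ∀ p, roundGB κ * (1 + (53 - 44 * k) / (1080 * κ ^ 2) *
        weylEnergy (K.e p) (K.R p) (s * κ)) ≤ s * K.gbc p := fun p =>
      (point (K.e p) (K.R p) s κ k hs hκ (h p)).1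
    have hn : ∀ p, 0 ≤ weylEnergy (K.e p) (K.R p) (s * κ) := fun p =>
      weylSq_nonneg (K.e p) (K.R p) (s * κ)
    have e0 : s * ∫ p, K.gbc p ∂μ = ∫ p, s * K.gbc p ∂μ := (integral_const_mul s _).symm
    rw [e0]
    refine ⟨fun hw => int_ge (hf.const_mul s) hw hp, fun hk => ?_, fun hk he => ?_⟩
    · exact int_ge0 hr (div_nonneg (by linarith) (by positivity)) (hf.const_mul s) hn hp
    · have h1 := int_eq0 hr (div_pos (by linarith) (by positivity)) (hf.const_mul s) hn hp he
      filter_upwards [h1] with p hp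
      exact weylSq_zero (K.e p) (K.curv p) hp

end Pool.Agent.Results.MP_ebfab8_gt.WeylEnergyDimSix
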